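import Mathlib
import Pool.Agent.Helper12.BoxDimDefs
import Pool.Agent.Helper12.BoxMain

open Pool.Agent.Helper12.BoxDim

/-- There are a closed connected Riemannian `3`-manifold `M`, a `C^∞` expanding map `f` of `M` and
an expanding repeller `Λ` of `f` whose lower box dimension is strictly smaller than its upper box
dimension. -/
theorem Pool.Agent.Results.MP_16bd3e_an.NoBoxDimension.result :
    IrregularRepellerExists (EuclideanSpace ℝ (Fin 3)) := by
  obtain ⟨S⟩ := Pool.Agent.Helper12.BoxSystem.exists_sys
  exact ⟨Pool.Agent.Helper12.BoxSystem.T3, inferInstance, inferInstance, inferInstance,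
    inferInstance, inferInstance, inferInstance,
    Pool.Agent.Helper12.FlatTorus.instManifold, Pool.Agent.Helper12.FlatTorus.instRiem,
    Pool.Agent.Helper12.FlatTorus.instRiemSmooth, Pool.Agent.Helper12.BoxSystem.fT S,
    Pool.Agent.Helper12.BoxSystem.Lam S, Pool.Agent.Helper12.BoxSystem.main S⟩
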